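import Pool.Agent.Lib.DirPoly.Moments

/-!
# Prime sums: `∑ log²p / p`, prime powers, and high moments of `∑ Λ(n) b(n) n^{-1/2-it}`
-/

namespace Pool.Agent.DirPoly

open Finset MeasureTheory Pool.Agent.Hadamard ArithmeticFunction


/-- Discrete partial summation. -/
lemma weighted_sum_le (c w g : ℕ → ℝ) {C : ℝ} (hC : 0 ≤ C)
    (hS : ∀ N, ∑ n ∈ Icc 1 N, c n ≤ C * g N) (hw : ∀ n, 1 ≤ n → w (n + 1) ≤ w n)
    (hw0 : ∀ n, 1 ≤ n → 0 ≤ w n) (h1 : g 1 * w 1 ≤ 1)
    (hg : ∀ n : ℕ, 1 ≤ n → w (n + 1) * (g (n + 1) - g n) ≤ 1 / ((n : ℝ) + 1)) {N : ℕ}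
    (hN : 1 ≤ N) : ∑ n ∈ Icc 1 N, c n * w n ≤ C * (1 + Real.log N) := by
  have key : ∀ N, 1 ≤ N → ∑ n ∈ Icc 1 N, c n * w n + (C * g N - ∑ n ∈ Icc 1 N, c n) * w N ≤
      C * (1 + Real.log N) := by
    intro N hN
    induction N, hN using Nat.le_induction with
    | base =>
      simp only [Icc_self, sum_singleton, Nat.cast_one, Real.log_one, add_zero, mul_one]
      nlinarith
    | succ n hn ih =>
      rw [sum_Icc_succ_top (by omega), sum_Icc_succ_top (by omega)]
      have h2 : 1 / ((n : ℝ) + 1) ≤ Real.log ((n + 1 : ℕ) : ℝ) - Real.log n := by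
        have hn0 : (0 : ℝ) < n := by exact_mod_cast hn
        rw [← Real.log_div (by positivity) hn0.ne']
        have h3 := Real.one_sub_inv_le_log_of_pos (x := ((n + 1 : ℕ) : ℝ) / n) (by positivity)
        refine le_trans ?_ h3
        push_cast
        rw [inv_div]
        apply le_of_eq
        field_simp
        ring
      have h4 := hg n hn
      have h5 := hS n
      have h6 := hw n hn
      have h7 := mul_le_mul_of_nonneg_left (h4.trans h2) hC
      have h8 : (∑ n ∈ Icc 1 n, c n) * (w n - w (n + 1)) ≤ C * g n * (w n - w (n + 1)) :=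
        mul_le_mul_of_nonneg_right h5 (by linarith)
      nlinarith
  have h2 := key N hN
  have h3 : 0 ≤ (C * g N - ∑ n ∈ Icc 1 N, c n) * w N :=
    mul_nonneg (by linarith [hS N]) (hw0 N hN)
  linarith

lemma Ioc_zero_eq_Icc_one (N : ℕ) : Ioc 0 N = Icc 1 N := by
  ext x; simp only [mem_Ioc, mem_Icc]; omega

/-- `∑_{p ≤ N} log p / p ≤ C (1 + log N)`. -/
theorem sum_log_div_le {N : ℕ} (hN : 1 ≤ N) :
    ∑ p ∈ (Icc 1 N).filter Nat.Prime, Real.log p / p ≤ Real.log 4 * (1 + Real.log N) := by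
  have h := weighted_sum_le (fun n => if n.Prime then Real.log n else 0) (fun n => 1 / (n : ℝ))
    (fun n => (n : ℝ)) (C := Real.log 4) (Real.log_nonneg (by norm_num)) ?_ ?_ ?_ ?_ ?_ hN
  · rw [Finset.sum_filter]
    refine le_trans (le_of_eq ?_) h
    refine Finset.sum_congr rfl fun n _ => ?_
    split_ifs <;> simp [div_eq_mul_inv]
  · intro N
    have h2 := Chebyshev.theta_le_log4_mul_x (x := (N : ℝ)) (by positivity)
    refine le_trans (le_of_eq ?_) h2
    rw [Chebyshev.theta, Nat.floor_natCast, Ioc_zero_eq_Icc_one, Finset.sum_filter]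
  · intro n hn
    have : (0 : ℝ) < n := by exact_mod_cast hn
    push_cast
    gcongr
    linarith
  · intro n _; positivity
  · simp
  · intro n hn
    push_cast
    rw [add_sub_cancel_left, mul_one]

/-- `∑_{p ≤ N} log² p / p ≤ C log² N`. -/
theorem sum_log_sq_div_le {N : ℕ} (hN : 2 ≤ N) :
    ∑ p ∈ (Icc 1 N).filter Nat.Prime, Real.log p ^ 2 / p ≤ 6 * Real.log N ^ 2 := by
  have h1 := sum_log_div_le (N := N) (by omega)
  have hN1 : (2 : ℝ) ≤ N := by exact_mod_cast hN
  have hl2 := Real.log_two_gt_d9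
  have hlN : Real.log 2 ≤ Real.log N := Real.log_le_log (by norm_num) hN1
  have hl4 : Real.log 4 ≤ 1.4 := by
    have : Real.log 4 = 2 * Real.log 2 := by
      rw [show (4 : ℝ) = 2 ^ 2 by norm_num, Real.log_pow]; norm_num
    have := Real.log_two_lt_d9
    linarith
  calc ∑ p ∈ (Icc 1 N).filter Nat.Prime, Real.log p ^ 2 / p
      ≤ ∑ p ∈ (Icc 1 N).filter Nat.Prime, Real.log N * (Real.log p / p) := by
        refine Finset.sum_le_sum fun p hp => ?_
        rw [mem_filter, mem_Icc] at hp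
        have h3 : (0 : ℝ) < p := by exact_mod_cast hp.2.pos
        have h4 : Real.log p ≤ Real.log N := Real.log_le_log h3 (by exact_mod_cast hp.1.2)
        have h5 : 0 ≤ Real.log p := Real.log_nonneg (by exact_mod_cast hp.2.one_le)
        rw [pow_two, mul_div_assoc]
        exact mul_le_mul_of_nonneg_right h4 (by positivity)
    _ = Real.log N * ∑ p ∈ (Icc 1 N).filter Nat.Prime, Real.log p / p := by rw [Finset.mul_sum]
    _ ≤ Real.log N * (1.4 * (1 + Real.log N)) := by
        have h6 : (0 : ℝ) ≤ Real.log N := by linarith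
        have h7 : (0 : ℝ) ≤ 1 + Real.log N := by linarith
        gcongr
        exact h1.trans (mul_le_mul_of_nonneg_right hl4 h7)
    _ ≤ 6 * Real.log N ^ 2 := by nlinarith

/-- `∑_{n ≤ N, n not prime} Λ(n) / √n ≤ C (1 + log N)`. -/
theorem exists_sum_nonprime_le : ∃ C : ℝ, 0 < C ∧ ∀ N : ℕ, 1 ≤ N →
    ∑ n ∈ (Icc 1 N).filter (fun n => ¬ n.Prime), vonMangoldt n / Real.sqrt n ≤ C * (1 + Real.log N) := by
  obtain ⟨C, hC⟩ := Chebyshev.psi_sub_theta_le_mul_sqrt
  refine ⟨max C 1, by positivity, fun N hN => ?_⟩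
  have h := weighted_sum_le (fun n => if n.Prime then 0 else vonMangoldt n)
    (fun n => 1 / Real.sqrt n)
    (fun n => Real.sqrt n) (C := max C 1) (by positivity) ?_ ?_ ?_ ?_ ?_ hN
  · rw [Finset.sum_filter]
    refine le_trans (le_of_eq ?_) h
    refine Finset.sum_congr rfl fun n _ => ?_
    split_ifs <;> simp_all [div_eq_mul_inv]
  · intro N
    have h2 := hC N
    rw [Chebyshev.psi_sub_theta_eq_sum_not_prime, Nat.floor_natCast, Ioc_zero_eq_Icc_one] at h2
    have h3 : C * Real.sqrt N ≤ max C 1 * Real.sqrt N :=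
      mul_le_mul_of_nonneg_right (le_max_left _ _) (Real.sqrt_nonneg _)
    refine le_trans (le_of_eq ?_) (h2.trans h3)
    rw [Finset.sum_filter]
    refine Finset.sum_congr rfl fun n _ => ?_
    split_ifs <;> simp_all
  · intro n hn
    have : (0 : ℝ) < n := by exact_mod_cast hn
    push_cast
    gcongr
    linarith
  · intro n _; positivity
  · simp
  · intro n hn
    have hn0 : (0 : ℝ) < n := by exact_mod_cast hn
    have h3 : Real.sqrt n ^ 2 = n := Real.sq_sqrt hn0.le
    have h4 : Real.sqrt ((n + 1 : ℕ) : ℝ) ^ 2 = (n : ℝ) + 1 := by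
      rw [Real.sq_sqrt (by positivity)]; push_cast; ring
    have h5 : 0 < Real.sqrt ((n + 1 : ℕ) : ℝ) := by positivity
    have h6 : Real.sqrt n ≤ Real.sqrt ((n + 1 : ℕ) : ℝ) := by
      apply Real.sqrt_le_sqrt; push_cast; linarith
    have h7 : 0 < Real.sqrt n := by positivity
    rw [← h4, div_mul_eq_mul_div, one_mul, div_le_div_iff₀ h5 (by positivity), one_mul]
    have h8 : (Real.sqrt ((n + 1 : ℕ) : ℝ) - Real.sqrt n) * Real.sqrt ((n + 1 : ℕ) : ℝ) ≤ 1 := by
      nlinarith
    nlinarith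

end Pool.Agent.DirPoly
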