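import Pool.Agent.Lib.Hadamard.Fejer

/-!
# High moments of Dirichlet polynomials supported on primes

`moment_prime_poly`: for a finite set `P` of primes `≤ x` with `x ^ k ≤ T`,
`∫ |∑_{p ∈ P} a_p p^{-it}|^{2k} fejerW (t/T) dt ≤ (5/2) π T k! (∑ |a_p|²)^k`.
-/

namespace Pool.Agent.DirPoly

open Finset MeasureTheory Pool.Agent.Hadamard

/-- Two sequences of primes with the same product are permutations of each other. -/
lemma exists_perm_of_prod_eq {k : ℕ} (f g : Fin k → ℕ) (hf : ∀ i, (f i).Prime)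
    (hg : ∀ i, (g i).Prime) (h : ∏ i, f i = ∏ i, g i) : ∃ σ : Equiv.Perm (Fin k), f = g ∘ σ := by
  have h1 : List.Perm (List.ofFn f) (List.ofFn g) := by
    have hf' : List.Perm (List.ofFn f) (∏ i, f i).primeFactorsList := by
      apply Nat.primeFactorsList_unique
      · rw [List.prod_ofFn]
      · intro p hp
        rw [List.mem_ofFn] at hp
        obtain ⟨i, rfl⟩ := hp
        exact hf i
    have hg' : List.Perm (List.ofFn g) (∏ i, g i).primeFactorsList := by
      apply Nat.primeFactorsList_unique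
      · rw [List.prod_ofFn]
      · intro p hp
        rw [List.mem_ofFn] at hp
        obtain ⟨i, rfl⟩ := hp
        exact hg i
    rw [h] at hf'
    exact hf'.trans hg'.symm
  have h2 : List.Perm (List.ofFn (f ∘ Tuple.sort f)) (List.ofFn (g ∘ Tuple.sort g)) :=
    ((Equiv.Perm.ofFn_comp_perm (Tuple.sort f) f).trans h1).trans
      (Equiv.Perm.ofFn_comp_perm (Tuple.sort g) g).symm
  have h3 : f ∘ Tuple.sort f = g ∘ Tuple.sort g := by
    apply List.ofFn_injective
    refine List.Perm.eq_of_pairwise (le := (· ≤ ·)) ?_ ?_ ?_ h2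
    · intro a b _ _ h3 h4
      exact le_antisymm h3 h4
    · exact (List.pairwise_ofFn).mpr fun i j hij => Tuple.monotone_sort f hij.le
    · exact (List.pairwise_ofFn).mpr fun i j hij => Tuple.monotone_sort g hij.le
  refine ⟨(Tuple.sort f)⁻¹.trans (Tuple.sort g), ?_⟩
  funext i
  have h4 := congrFun h3 ((Tuple.sort f)⁻¹ i)
  simpa using h4

/-- The number of ordered factorisations into `k` primes is at most `k!`. -/
lemma card_fiber_le {k : ℕ} (P : Finset ℕ) (hP : ∀ p ∈ P, p.Prime) (n : ℕ) :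
    ((Fintype.piFinset (fun _ : Fin k => P)).filter (fun f => ∏ i, f i = n)).card
      ≤ k.factorial := by
  classical
  rcases Finset.eq_empty_or_nonempty
    ((Fintype.piFinset (fun _ : Fin k => P)).filter (fun f => ∏ i, f i = n)) with h | ⟨g, hg⟩
  · rw [h]; simp
  · rw [mem_filter, Fintype.mem_piFinset] at hg
    have h1 : ((Fintype.piFinset (fun _ : Fin k => P)).filter (fun f => ∏ i, f i = n)) ⊆
        (Finset.univ : Finset (Equiv.Perm (Fin k))).image
          (fun σ : Equiv.Perm (Fin k) => g ∘ (σ : Fin k → Fin k)) := by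
      intro f hf
      rw [mem_filter, Fintype.mem_piFinset] at hf
      obtain ⟨σ, hσ⟩ := exists_perm_of_prod_eq f g (fun i => hP _ (hf.1 i)) (fun i => hP _ (hg.1 i))
        (hf.2.trans hg.2.symm)
      exact mem_image.mpr ⟨σ, mem_univ _, hσ.symm⟩
    calc _ ≤ _ := Finset.card_le_card h1
      _ ≤ _ := Finset.card_image_le
      _ = k.factorial := by rw [Finset.card_univ, Fintype.card_perm, Fintype.card_fin]

/-- The `k`-th power of a Dirichlet polynomial over primes. -/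
lemma pow_eq_sum {k x : ℕ} (P : Finset ℕ) (hP : ∀ p ∈ P, p.Prime) (hx : ∀ p ∈ P, p ≤ x)
    (a : ℕ → ℂ) (s : ℂ) :
    (∑ p ∈ P, a p * (p : ℂ) ^ s) ^ k =
      ∑ n ∈ Finset.Icc 1 (x ^ k),
        (∑ f ∈ (Fintype.piFinset (fun _ : Fin k => P)).filter (fun f => ∏ i, f i = n),
          ∏ i, a (f i)) * (n : ℂ) ^ s := by
  classical
  have h1 : (∑ p ∈ P, a p * (p : ℂ) ^ s) ^ k = ∏ i : Fin k, ∑ p ∈ P, a p * (p : ℂ) ^ s := by
    rw [Finset.prod_const, Finset.card_univ, Fintype.card_fin]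
  rw [h1, Finset.prod_univ_sum]
  have h2 : ∀ f ∈ Fintype.piFinset (fun _ : Fin k => P), ∏ i, f i ∈ Finset.Icc 1 (x ^ k) := by
    intro f hf
    rw [Fintype.mem_piFinset] at hf
    rw [mem_Icc]
    constructor
    · exact Finset.prod_pos fun i _ => (hP _ (hf i)).pos
    · calc ∏ i, f i ≤ ∏ _i : Fin k, x := Finset.prod_le_prod' fun i _ => hx _ (hf i)
        _ = x ^ k := by rw [Finset.prod_const, Finset.card_univ, Fintype.card_fin]
  rw [← Finset.sum_fiberwise_of_maps_to h2]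
  refine Finset.sum_congr rfl fun n hn => ?_
  rw [Finset.sum_mul]
  refine Finset.sum_congr rfl fun f hf => ?_
  rw [mem_filter] at hf
  rw [Finset.prod_mul_distrib]
  congr 1
  rw [← hf.2]
  push_cast
  have h3 : ∀ t : Finset (Fin k), ∏ i ∈ t, (f i : ℂ) ^ s = (∏ i ∈ t, (f i : ℂ)) ^ s := by
    intro t
    induction t using Finset.induction_on with
    | empty => simp
    | insert j t hj ih =>
      rw [Finset.prod_insert hj, Finset.prod_insert hj, ih]
      have h4 : (∏ i ∈ t, (f i : ℂ)) = ((∏ i ∈ t, f i : ℕ) : ℂ) := by push_cast; rfl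
      rw [h4, ← Complex.natCast_mul_natCast_cpow]
  exact h3 _

/-- `ℓ²` norm of the coefficients of the `k`-th power. -/
lemma sum_coeff_le {k x : ℕ} (P : Finset ℕ) (hP : ∀ p ∈ P, p.Prime) (hx : ∀ p ∈ P, p ≤ x)
    (a : ℕ → ℂ) :
    ∑ n ∈ Finset.Icc 1 (x ^ k),
        ‖∑ f ∈ (Fintype.piFinset (fun _ : Fin k => P)).filter (fun f => ∏ i, f i = n),
          ∏ i, a (f i)‖ ^ 2 ≤ k.factorial * (∑ p ∈ P, ‖a p‖ ^ 2) ^ k := by
  classical
  have h2 : ∀ f ∈ Fintype.piFinset (fun _ : Fin k => P), ∏ i, f i ∈ Finset.Icc 1 (x ^ k) := by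
    intro f hf
    rw [Fintype.mem_piFinset] at hf
    rw [mem_Icc]
    constructor
    · exact Finset.prod_pos fun i _ => (hP _ (hf i)).pos
    · calc ∏ i, f i ≤ ∏ _i : Fin k, x := Finset.prod_le_prod' fun i _ => hx _ (hf i)
        _ = x ^ k := by rw [Finset.prod_const, Finset.card_univ, Fintype.card_fin]
  have h1 : ∀ n ∈ Finset.Icc 1 (x ^ k),
      ‖∑ f ∈ (Fintype.piFinset (fun _ : Fin k => P)).filter (fun f => ∏ i, f i = n),
          ∏ i, a (f i)‖ ^ 2 ≤ k.factorial *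
      ∑ f ∈ (Fintype.piFinset (fun _ : Fin k => P)).filter (fun f => ∏ i, f i = n),
          ∏ i, ‖a (f i)‖ ^ 2 := by
    intro n _
    calc _ ≤ (∑ f ∈ (Fintype.piFinset (fun _ : Fin k => P)).filter (fun f => ∏ i, f i = n),
          ‖∏ i, a (f i)‖) ^ 2 := by
          gcongr
          exact norm_sum_le _ _
      _ ≤ ((Fintype.piFinset (fun _ : Fin k => P)).filter (fun f => ∏ i, f i = n)).card *
          ∑ f ∈ (Fintype.piFinset (fun _ : Fin k => P)).filter (fun f => ∏ i, f i = n),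
          ‖∏ i, a (f i)‖ ^ 2 := sq_sum_le_card_mul_sum_sq
      _ ≤ _ := by
          have h3 : ∀ f : Fin k → ℕ, ‖∏ i, a (f i)‖ ^ 2 = ∏ i, ‖a (f i)‖ ^ 2 := by
            intro f
            rw [norm_prod, Finset.prod_pow]
          simp only [h3]
          gcongr
          exact card_fiber_le P hP n
  calc _ ≤ ∑ n ∈ Finset.Icc 1 (x ^ k), (k.factorial : ℝ) *
      ∑ f ∈ (Fintype.piFinset (fun _ : Fin k => P)).filter (fun f => ∏ i, f i = n),
          ∏ i, ‖a (f i)‖ ^ 2 := Finset.sum_le_sum h1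
    _ = k.factorial * ∑ f ∈ Fintype.piFinset (fun _ : Fin k => P), ∏ i, ‖a (f i)‖ ^ 2 := by
        rw [← Finset.mul_sum, Finset.sum_fiberwise_of_maps_to h2]
    _ = _ := by
        congr 1
        have h4 : (∑ p ∈ P, ‖a p‖ ^ 2) ^ k = ∏ i : Fin k, ∑ p ∈ P, ‖a p‖ ^ 2 := by
          rw [Finset.prod_const, Finset.card_univ, Fintype.card_fin]
        rw [h4, Finset.prod_univ_sum]

/-- **High moments of prime Dirichlet polynomials.** -/
theorem moment_prime_poly {k x : ℕ} {T : ℝ} (hT : 0 < T) (hxT : (x : ℝ) ^ k ≤ T)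
    (P : Finset ℕ) (hP : ∀ p ∈ P, p.Prime) (hx : ∀ p ∈ P, p ≤ x) (a : ℕ → ℂ) :
    ∫ t : ℝ, ‖∑ p ∈ P, a p * (p : ℂ) ^ (-(t * Complex.I) : ℂ)‖ ^ (2 * k) * fejerW (t / T) ≤
      5 / 2 * Real.pi * T * (k.factorial * (∑ p ∈ P, ‖a p‖ ^ 2) ^ k) := by
  have h1 : ∀ t : ℝ, ‖∑ p ∈ P, a p * (p : ℂ) ^ (-(t * Complex.I) : ℂ)‖ ^ (2 * k) =
      ‖∑ n ∈ Finset.Icc 1 (x ^ k),
        (∑ f ∈ (Fintype.piFinset (fun _ : Fin k => P)).filter (fun f => ∏ i, f i = n),
          ∏ i, a (f i)) * (n : ℂ) ^ (-(t * Complex.I) : ℂ)‖ ^ 2 := by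
    intro t
    rw [← pow_eq_sum P hP hx, norm_pow, ← pow_mul, mul_comm k 2]
  simp only [h1]
  rw [dirichlet_mean_value hT (by push_cast; exact hxT)
    (fun n => ∑ f ∈ (Fintype.piFinset (fun _ : Fin k => P)).filter (fun f => ∏ i, f i = n),
          ∏ i, a (f i))]
  gcongr
  exact sum_coeff_le P hP hx a

end Pool.Agent.DirPoly
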