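import Pool.Agent.Lib.DirPoly.PrimeSums

/-!
# High moments of `∑ Λ(n) b(n) n^{-1/2-it}` and the resulting large value estimate
-/

namespace Pool.Agent.DirPoly

open Finset MeasureTheory Pool.Agent.Hadamard ArithmeticFunction

/-- The Dirichlet polynomial `∑_{n ≤ x} Λ(n) b(n) n^{-1/2-it}`. -/
noncomputable def vmPoly (b : ℕ → ℂ) (x : ℕ) (t : ℝ) : ℂ :=
  ∑ n ∈ Icc 1 x, (vonMangoldt n : ℂ) * b n * (n : ℂ) ^ (-(1 / 2 + t * Complex.I) : ℂ)

/-- The part over primes. -/
noncomputable def primePoly (b : ℕ → ℂ) (x : ℕ) (t : ℝ) : ℂ :=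
  ∑ p ∈ (Icc 1 x).filter Nat.Prime,
    ((Real.log p : ℂ) * b p * (p : ℂ) ^ (-(1 / 2) : ℂ)) * (p : ℂ) ^ (-(t * Complex.I) : ℂ)

lemma norm_cpow_neg_half {n : ℕ} (hn : 0 < n) : ‖(n : ℂ) ^ (-(1 / 2) : ℂ)‖ = (Real.sqrt n)⁻¹ := by
  rw [Complex.norm_natCast_cpow_of_pos hn]
  have : (-(1 / 2) : ℂ).re = -(1 / 2) := by norm_num
  rw [this, Real.rpow_neg (by positivity), Real.sqrt_eq_rpow]

lemma norm_cpow_line {n : ℕ} (hn : 0 < n) (t : ℝ) :
    ‖(n : ℂ) ^ (-(1 / 2 + t * Complex.I) : ℂ)‖ = (Real.sqrt n)⁻¹ := by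
  rw [Complex.norm_natCast_cpow_of_pos hn]
  have : (-(1 / 2 + t * Complex.I) : ℂ).re = -(1 / 2) := by simp
  rw [this, Real.rpow_neg (by positivity), Real.sqrt_eq_rpow]

theorem exists_vmPoly_sub_primePoly_le : ∃ C : ℝ, 0 < C ∧ ∀ (x : ℕ) (B : ℝ) (b : ℕ → ℂ) (t : ℝ),
    2 ≤ x → (∀ n, ‖b n‖ ≤ B) →
      ‖vmPoly b x t - primePoly b x t‖ ≤ C * B * Real.log x := by
  obtain ⟨C, hC0, hC⟩ := exists_sum_nonprime_le
  refine ⟨3 * C, by positivity, fun x B b t hx hb => ?_⟩
  have hB : 0 ≤ B := le_trans (norm_nonneg _) (hb 0)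
  have h1 : vmPoly b x t - primePoly b x t =
      ∑ n ∈ (Icc 1 x).filter (fun n => ¬ n.Prime),
        (vonMangoldt n : ℂ) * b n * (n : ℂ) ^ (-(1 / 2 + t * Complex.I) : ℂ) := by
    rw [vmPoly, primePoly, ← Finset.sum_filter_add_sum_filter_not (Icc 1 x) Nat.Prime,
      add_sub_assoc, add_comm, sub_add_eq_add_sub, add_sub_assoc, add_eq_left, sub_eq_zero]
    refine Finset.sum_congr rfl fun p hp => ?_
    rw [mem_filter] at hp
    rw [vonMangoldt_apply_prime hp.2, mul_assoc, mul_assoc, mul_assoc,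
      ← Complex.cpow_add _ _ (by exact_mod_cast hp.2.ne_zero)]
    congr 3
    ring_nf
  rw [h1]
  calc _ ≤ ∑ n ∈ (Icc 1 x).filter (fun n => ¬ n.Prime),
        ‖(vonMangoldt n : ℂ) * b n * (n : ℂ) ^ (-(1 / 2 + t * Complex.I) : ℂ)‖ := norm_sum_le _ _
    _ ≤ ∑ n ∈ (Icc 1 x).filter (fun n => ¬ n.Prime), B * (vonMangoldt n / Real.sqrt n) := by
        refine Finset.sum_le_sum fun n hn => ?_
        rw [mem_filter, mem_Icc] at hn
        rw [norm_mul, norm_mul, norm_cpow_line (by omega), Complex.norm_real, Real.norm_eq_abs,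
          abs_of_nonneg vonMangoldt_nonneg]
        have h2 := hb n
        have h3 : 0 ≤ (vonMangoldt n : ℝ) := vonMangoldt_nonneg
        calc _ ≤ vonMangoldt n * B * (Real.sqrt n)⁻¹ := by gcongr
          _ = _ := by ring
    _ ≤ B * (C * (1 + Real.log x)) := by
        rw [← Finset.mul_sum]
        exact mul_le_mul_of_nonneg_left (hC x (by omega)) hB
    _ ≤ _ := by
        have h2 : Real.log 2 ≤ Real.log x := Real.log_le_log (by norm_num) (by exact_mod_cast hx)
        have h3 := Real.log_two_gt_d9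
        have h4 : 1 + Real.log x ≤ 3 * Real.log x := by linarith
        calc B * (C * (1 + Real.log x)) ≤ B * (C * (3 * Real.log x)) := by gcongr
          _ = _ := by ring

lemma primePoly_moment {k x : ℕ} {T B : ℝ} (hT : 0 < T) (hx : 2 ≤ x) (hxT : (x : ℝ) ^ k ≤ T)
    (b : ℕ → ℂ) (hb : ∀ n, ‖b n‖ ≤ B) :
    ∫ t : ℝ, ‖primePoly b x t‖ ^ (2 * k) * fejerW (t / T) ≤
      5 / 2 * Real.pi * T * (k.factorial * (6 * B ^ 2 * Real.log x ^ 2) ^ k) := by
  have hB : 0 ≤ B := le_trans (norm_nonneg _) (hb 0)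
  have h1 := moment_prime_poly hT hxT ((Icc 1 x).filter Nat.Prime)
    (fun p hp => (mem_filter.mp hp).2) (fun p hp => (mem_Icc.mp (mem_filter.mp hp).1).2)
    (fun p => (Real.log p : ℂ) * b p * (p : ℂ) ^ (-(1 / 2) : ℂ))
  refine h1.trans ?_
  have h2 : ∑ p ∈ (Icc 1 x).filter Nat.Prime,
      ‖(Real.log p : ℂ) * b p * (p : ℂ) ^ (-(1 / 2) : ℂ)‖ ^ 2 ≤ 6 * B ^ 2 * Real.log x ^ 2 := by
    calc _ ≤ ∑ p ∈ (Icc 1 x).filter Nat.Prime, B ^ 2 * (Real.log p ^ 2 / p) := by
          refine Finset.sum_le_sum fun p hp => ?_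
          rw [mem_filter, mem_Icc] at hp
          rw [norm_mul, norm_mul, norm_cpow_neg_half hp.2.pos, Complex.norm_real, mul_pow, mul_pow,
            inv_pow, Real.sq_sqrt (by positivity), Real.norm_eq_abs, sq_abs]
          have h3 := hb p
          have h4 : ‖b p‖ ^ 2 ≤ B ^ 2 := by gcongr
          calc _ ≤ Real.log p ^ 2 * B ^ 2 * (p : ℝ)⁻¹ := by gcongr
            _ = _ := by ring
      _ ≤ B ^ 2 * (6 * Real.log x ^ 2) := by
          rw [← Finset.mul_sum]
          exact mul_le_mul_of_nonneg_left (sum_log_sq_div_le hx) (by positivity)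
      _ = _ := by ring
  gcongr

lemma primePoly_continuous (b : ℕ → ℂ) (x : ℕ) : Continuous (primePoly b x) := by
  unfold primePoly
  refine continuous_finsetSum _ fun p hp => ?_
  have hp0 : (p : ℂ) ≠ 0 := by exact_mod_cast (mem_filter.mp hp).2.ne_zero
  refine Continuous.mul continuous_const ?_
  refine Continuous.const_cpow (by fun_prop) (Or.inl hp0)

/-- Large values of the prime polynomial. -/
theorem primePoly_large {k x : ℕ} {T B V : ℝ} (hT : 0 < T) (hV : 0 < V) (hx : 2 ≤ x)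
    (hxT : (x : ℝ) ^ k ≤ T) (b : ℕ → ℂ) (hb : ∀ n, ‖b n‖ ≤ B) :
    (volume.real {t : ℝ | |t| ≤ T ∧ V ≤ ‖primePoly b x t‖}) ≤
      8 * T * (k.factorial * (6 * B ^ 2 * Real.log x ^ 2 / V ^ 2) ^ k) := by
  have h1 := primePoly_moment hT hx hxT b hb
  have hint : Integrable (fun t : ℝ => ‖primePoly b x t‖ ^ (2 * k) * fejerW (t / T)) := by
    have h2 : Integrable (fun t : ℝ => fejerW (t / T)) := fejerW_integrable.comp_div hT.ne'
    have h3 : ∃ M : ℝ, ∀ t, ‖primePoly b x t‖ ≤ M := by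
      refine ⟨∑ p ∈ (Icc 1 x).filter Nat.Prime,
        ‖(Real.log p : ℂ) * b p * (p : ℂ) ^ (-(1 / 2) : ℂ)‖, fun t => ?_⟩
      refine (norm_sum_le _ _).trans (Finset.sum_le_sum fun p hp => ?_)
      rw [norm_mul, Complex.norm_natCast_cpow_of_pos (mem_filter.mp hp).2.pos]
      simp
    obtain ⟨M, hM⟩ := h3
    refine (h2.const_mul (M ^ (2 * k))).mono' ?_ ?_
    · have h4 := fejerW_continuous
      have h5 := primePoly_continuous b x
      exact Continuous.aestronglyMeasurable (by fun_prop)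
    · refine Filter.Eventually.of_forall fun t => ?_
      rw [norm_mul, norm_pow, norm_norm, Real.norm_of_nonneg (fejerW_nonneg _)]
      have := fejerW_nonneg (t / T)
      gcongr
      exact hM t
  have hset : MeasurableSet {t : ℝ | |t| ≤ T ∧ V ≤ ‖primePoly b x t‖} := by
    have h5 := primePoly_continuous b x
    exact ((isClosed_le continuous_abs continuous_const).inter
      (isClosed_le continuous_const h5.norm)).measurableSet
  have hfin : volume {t : ℝ | |t| ≤ T ∧ V ≤ ‖primePoly b x t‖} ≠ ⊤ := by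
    refine ne_top_of_le_ne_top ?_ (measure_mono (t := Set.Icc (-T) T) ?_)
    · rw [Real.volume_Icc]; exact ENNReal.ofReal_ne_top
    · intro t ht
      exact abs_le.mp ht.1
  have h6 : V ^ (2 * k) * volume.real {t : ℝ | |t| ≤ T ∧ V ≤ ‖primePoly b x t‖} ≤
      ∫ t : ℝ, ‖primePoly b x t‖ ^ (2 * k) * fejerW (t / T) := by
    calc _ = ∫ t in {t : ℝ | |t| ≤ T ∧ V ≤ ‖primePoly b x t‖}, V ^ (2 * k) := by
          rw [setIntegral_const, smul_eq_mul, mul_comm]
      _ ≤ ∫ t in {t : ℝ | |t| ≤ T ∧ V ≤ ‖primePoly b x t‖},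
            ‖primePoly b x t‖ ^ (2 * k) * fejerW (t / T) := by
          refine setIntegral_mono_on ?_ hint.integrableOn hset fun t ht => ?_
          · exact integrableOn_const hfin
          · have h7 : 1 ≤ fejerW (t / T) := by
              apply fejerW_ge_one
              rw [abs_div, abs_of_pos hT]
              exact (div_le_one hT).mpr ht.1
            calc V ^ (2 * k) = V ^ (2 * k) * 1 := by ring
              _ ≤ _ := by
                gcongr
                exact ht.2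
      _ ≤ _ := by
          refine setIntegral_le_integral hint (Filter.Eventually.of_forall fun t => ?_)
          exact mul_nonneg (by positivity) (fejerW_nonneg _)
  have h8 : V ^ (2 * k) * volume.real {t : ℝ | |t| ≤ T ∧ V ≤ ‖primePoly b x t‖} ≤
      8 * T * (k.factorial * (6 * B ^ 2 * Real.log x ^ 2) ^ k) := by
    refine h6.trans (h1.trans ?_)
    have : 5 / 2 * Real.pi ≤ 8 := by
      have := Real.pi_lt_d2
      linarith
    gcongr
  have h9 : 0 < V ^ (2 * k) := by positivity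
  rw [div_pow, ← pow_mul, ← mul_div_assoc, ← mul_div_assoc, le_div_iff₀ h9, mul_comm]
  exact h8

end Pool.Agent.DirPoly
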